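import Mathlib

/-!
# An open quantum graph without loops, with irrational lengths and an embedded eigenvalue

Disproof of Q1 of MP_332ffb_mp.  The graph is a tree: a vertex `w` with one lead, and two copies of
the tree with an edge from `w` to a vertex `v` and two further edges from `v` to vertices of degree
one.  The lengths are `arctan (1/6), arctan 2, arctan 4` and `arctan (1/24), arctan 10, arctan 14`.
-/

set_option autoImplicit false

namespace Pool.Agent.Results.MP_332ffb_mp.EmbeddedEigenvalue

open Set MeasureTheory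

/-- A finite graph with leads: vertex type `V`, edge type `E`, the edge `e` joins `src e` and
`tgt e` (loops and multiple edges are allowed), and `leads v` half-lines are attached to the
vertex `v`. -/
structure OpenGraph (V E : Type) where
  src : E → V
  tgt : E → V
  leads : V → ℕ

namespace OpenGraph

variable {V E : Type} [Fintype V] [Fintype E] [DecidableEq V] (G : OpenGraph V E)

/-- The degree of a vertex, the leads included (a loop counts twice). -/
def degree (v : V) : ℕ :=
  (Finset.univ.filter fun e => G.src e = v).card + (Finset.univ.filter fun e => G.tgt e = v).card +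
    G.leads v

/-- The finite graph (without leads) is connected, at least one lead is attached, and after the
leads are attached no vertex has degree two. -/
structure IsAdmissible : Prop where
  connected : ∀ v w : V, Relation.EqvGen (fun a b => ∃ e, G.src e = a ∧ G.tgt e = b) v w
  hasLead : ∃ w, 1 ≤ G.leads w
  degree_ne_two : ∀ v, G.degree v ≠ 2

/-- No edge is a loop. -/
def Loopless : Prop := ∀ e, G.src e ≠ G.tgt e

/-- `lam` is an eigenvalue of the Kirchhoff Laplacian of the metric graph with edge lengths `l`:
there are functions `u e` on `[0, l e]` and `h v i` on the leads `[0, ∞)` with derivatives `u' e`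
and `h' v i`, solutions of `-u'' = lam u`, square integrable, continuous at the vertices, with zero
sum of the outgoing derivatives at every vertex, and not all identically zero.  The edge `e` is
parametrised from `src e` (at `0`) to `tgt e` (at `l e`). -/
def IsEigenvalue (l : E → ℝ) (lam : ℝ) : Prop :=
  ∃ (u u' : E → ℝ → ℂ) (h h' : (v : V) → Fin (G.leads v) → ℝ → ℂ) (val : V → ℂ),
    (∀ e, ∀ x ∈ Icc 0 (l e), HasDerivWithinAt (u e) (u' e x) (Icc 0 (l e)) x) ∧
    (∀ e, ∀ x ∈ Icc 0 (l e), HasDerivWithinAt (u' e) (-(lam * u e x)) (Icc 0 (l e)) x) ∧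
    (∀ v i, ∀ x ∈ Ici (0 : ℝ), HasDerivWithinAt (h v i) (h' v i x) (Ici 0) x) ∧
    (∀ v i, ∀ x ∈ Ici (0 : ℝ), HasDerivWithinAt (h' v i) (-(lam * h v i x)) (Ici 0) x) ∧
    (∀ e, MemLp (u e) 2 (volume.restrict (Icc 0 (l e)))) ∧
    (∀ v i, MemLp (h v i) 2 (volume.restrict (Ici 0))) ∧
    (∀ e, u e 0 = val (G.src e)) ∧ (∀ e, u e (l e) = val (G.tgt e)) ∧
    (∀ v i, h v i 0 = val v) ∧
    (∀ v, (∑ e ∈ Finset.univ.filter (fun e => G.src e = v), u' e 0) +
      (∑ e ∈ Finset.univ.filter (fun e => G.tgt e = v), -u' e (l e)) + ∑ i, h' v i 0 = 0) ∧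
    ((∃ e, ∃ x ∈ Icc 0 (l e), u e x ≠ 0) ∨ ∃ v i, ∃ x ∈ Ici (0 : ℝ), h v i x ≠ 0)

end OpenGraph

/-! ### The example -/

/-- The graph of the example. -/
def T : OpenGraph (Fin 7) (Fin 6) where
  src := ![0, 1, 1, 0, 4, 4]
  tgt := ![1, 2, 3, 4, 5, 6]
  leads := ![1, 0, 0, 0, 0, 0, 0]

/-- The real parts of the Gaussian integers of the example. -/
def zr : Fin 6 → ℤ := ![6, 1, 1, 24, 1, 1]
/-- The imaginary parts of the Gaussian integers of the example. -/
def zi : Fin 6 → ℤ := ![1, 2, 4, 1, 10, 14]
/-- The norms of the Gaussian integers of the example: distinct primes. -/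
def P : Fin 6 → ℕ := ![37, 5, 17, 577, 101, 197]
/-- Square roots of `-1` modulo the primes. -/
def R : Fin 6 → ℤ := ![-6, 2, 4, -24, 10, 14]

/-- The lengths of the example. -/
noncomputable def len (j : Fin 6) : ℝ := Real.arctan ((zi j : ℝ) / zr j)

theorem zr_pos (j : Fin 6) : 0 < zr j := by fin_cases j <;> decide
theorem zi_pos (j : Fin 6) : 0 < zi j := by fin_cases j <;> decide

theorem len_pos (j : Fin 6) : 0 < len j := by
  have h1 : (0 : ℝ) < zr j := by exact_mod_cast zr_pos j
  have h2 : (0 : ℝ) < zi j := by exact_mod_cast zi_pos j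
  unfold len
  exact Real.arctan_pos.2 (by positivity)

theorem cos_len_pos (j : Fin 6) : 0 < Real.cos (len j) := Real.cos_arctan_pos _

theorem sin_len (j : Fin 6) : zr j * Real.sin (len j) = zi j * Real.cos (len j) := by
  have h1 : (zr j : ℝ) ≠ 0 := by exact_mod_cast (zr_pos j).ne'
  have h := Real.tan_arctan ((zi j : ℝ) / zr j)
  have h' : Real.tan (len j) = (zi j : ℝ) / zr j := h
  rw [Real.tan_eq_sin_div_cos] at h'
  have hc := (cos_len_pos j).ne'
  field_simp at h'
  linarith

/-- The Gaussian integers of the example. -/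
def zz (j : Fin 6) : GaussianInt := ⟨zr j, zi j⟩
/-- Their conjugates. -/
def zc (j : Fin 6) : GaussianInt := ⟨zr j, -zi j⟩

open Complex in
theorem exp_mul (j : Fin 6) :
    Complex.exp (2 * I * len j) * (GaussianInt.toComplex (zc j)) = GaussianInt.toComplex (zz j) := by
  have h := sin_len j
  have e1 : Complex.exp (2 * I * len j) =
      (Complex.cos (len j) + Complex.sin (len j) * I) ^ 2 := by
    rw [← Complex.exp_mul_I, ← Complex.exp_nat_mul]
    congr 1
    push_cast
    ring
  have h' : (zr j : ℂ) * Complex.sin (len j) = zi j * Complex.cos (len j) := by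
    have := congrArg (fun t : ℝ => (t : ℂ)) h
    push_cast at this
    exact this
  have hI : I ^ 2 = -1 := Complex.I_sq
  have hcs : Complex.sin (len j) ^ 2 + Complex.cos (len j) ^ 2 = 1 := Complex.sin_sq_add_cos_sq _
  rw [e1, zz, zc, GaussianInt.toComplex_def', GaussianInt.toComplex_def']
  push_cast
  linear_combination (-2 * Complex.sin (len j) + 2 * Complex.cos (len j) * I) * h' +
    ((zr j : ℂ) + zi j * I) * hcs +
    (Complex.sin (len j) ^ 2 * zr j - 2 * Complex.cos (len j) * Complex.sin (len j) * zi j
      - Complex.sin (len j) ^ 2 * zi j * I) * hI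

theorem R_sq (j : Fin 6) : ((R j : ℤ) : ZMod (P j)) * ((R j : ℤ) : ZMod (P j)) = ((-1 : ℤ) : ZMod (P j)) := by
  fin_cases j <;> decide

/-- Reduction of the Gaussian integers modulo the `j`-th prime. -/
noncomputable def red (j : Fin 6) : GaussianInt →+* ZMod (P j) := Zsqrtd.lift ⟨(R j : ZMod (P j)), R_sq j⟩

instance (j : Fin 6) : Fact (P j).Prime := ⟨by fin_cases j <;> (unfold P; norm_num)⟩

theorem red_zz_self (j : Fin 6) : red j (zz j) = 0 := by
  have : red j (zz j) = (zr j : ZMod (P j)) + (zi j : ZMod (P j)) * (R j : ZMod (P j)) := rfl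
  rw [this]
  fin_cases j <;> decide

theorem red_zc_ne (j i : Fin 6) : red j (zc i) ≠ 0 := by
  have : red j (zc i) = (zr i : ZMod (P j)) + ((-zi i : ℤ) : ZMod (P j)) * (R j : ZMod (P j)) := rfl
  rw [this]
  fin_cases j <;> fin_cases i <;> decide

theorem red_zz_ne (j i : Fin 6) (h : i ≠ j) : red j (zz i) ≠ 0 := by
  have : red j (zz i) = (zr i : ZMod (P j)) + (zi i : ZMod (P j)) * (R j : ZMod (P j)) := rfl
  rw [this]
  revert h
  fin_cases j <;> fin_cases i <;> decide

open Complex in
theorem linInd : LinearIndependent ℤ len := by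
  rw [Fintype.linearIndependent_iff]
  intro n hn j
  by_contra hj
  -- the relation between Gaussian integers
  have key : ∏ i, (zz i) ^ (n i).toNat * (zc i) ^ (-n i).toNat =
      ∏ i, (zc i) ^ (n i).toNat * (zz i) ^ (-n i).toNat := by
    apply GaussianInt.toComplex_injective
    rw [map_prod, map_prod]
    have e1 : ∀ i, GaussianInt.toComplex ((zz i) ^ (n i).toNat * (zc i) ^ (-n i).toNat) =
        Complex.exp (2 * I * len i) ^ (n i).toNat *
          GaussianInt.toComplex (zc i) ^ ((n i).toNat + (-n i).toNat) := by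
      intro i
      rw [map_mul, map_pow, map_pow, ← exp_mul i]
      ring
    have e2 : ∀ i, GaussianInt.toComplex ((zc i) ^ (n i).toNat * (zz i) ^ (-n i).toNat) =
        Complex.exp (2 * I * len i) ^ (-n i).toNat *
          GaussianInt.toComplex (zc i) ^ ((n i).toNat + (-n i).toNat) := by
      intro i
      rw [map_mul, map_pow, map_pow, ← exp_mul i]
      ring
    rw [Finset.prod_congr rfl fun i _ => e1 i, Finset.prod_congr rfl fun i _ => e2 i,
      Finset.prod_mul_distrib, Finset.prod_mul_distrib]
    congr 1
    simp only [← Complex.exp_nat_mul]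
    rw [← Complex.exp_sum, ← Complex.exp_sum]
    congr 1
    rw [← sub_eq_zero, ← Finset.sum_sub_distrib]
    have e3 : ∀ i, (((n i).toNat : ℕ) : ℂ) * (2 * I * len i) -
        (((-n i).toNat : ℕ) : ℂ) * (2 * I * len i) = 2 * I * ((n i • len i : ℝ) : ℂ) := by
      intro i
      have : (((n i).toNat : ℕ) : ℂ) - (((-n i).toNat : ℕ) : ℂ) = (n i : ℂ) := by
        have h := Int.toNat_sub_toNat_neg (n i)
        exact_mod_cast congrArg (fun t : ℤ => (t : ℂ)) h
      rw [← sub_mul, this]
      simp only [zsmul_eq_mul]
      push_cast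
      ring
    rw [Finset.sum_congr rfl fun i _ => e3 i, ← Finset.mul_sum, ← Complex.ofReal_sum, hn]
    simp
  have hred := congrArg (red j) key
  rw [map_prod, map_prod] at hred
  rcases lt_or_gt_of_ne hj with h | h
  · have hR : ∏ i, red j ((zc i) ^ (n i).toNat * (zz i) ^ (-n i).toNat) = 0 := by
      apply Finset.prod_eq_zero (Finset.mem_univ j)
      rw [map_mul, map_pow, map_pow, red_zz_self, zero_pow, mul_zero]
      omega
    rw [hR, Finset.prod_eq_zero_iff] at hred
    obtain ⟨i, -, hi⟩ := hred
    rw [map_mul, map_pow, map_pow, mul_eq_zero] at hi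
    rcases hi with hi | hi
    · by_cases hij : i = j
      · subst hij
        have : (n i).toNat = 0 := by omega
        rw [this] at hi
        simp at hi
      · exact pow_ne_zero _ (red_zz_ne j i hij) hi
    · exact pow_ne_zero _ (red_zc_ne j i) hi
  · have hR : ∏ i, red j ((zz i) ^ (n i).toNat * (zc i) ^ (-n i).toNat) = 0 := by
      apply Finset.prod_eq_zero (Finset.mem_univ j)
      rw [map_mul, map_pow, map_pow, red_zz_self, zero_pow, zero_mul]
      omega
    rw [hR] at hred
    have hred' := hred.symm
    rw [Finset.prod_eq_zero_iff] at hred'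
    obtain ⟨i, -, hi⟩ := hred'
    rw [map_mul, map_pow, map_pow, mul_eq_zero] at hi
    rcases hi with hi | hi
    · exact pow_ne_zero _ (red_zc_ne j i) hi
    · by_cases hij : i = j
      · subst hij
        have : (-n i).toNat = 0 := by omega
        rw [this] at hi
        simp at hi
      · exact pow_ne_zero _ (red_zz_ne j i hij) hi

theorem T_admissible : T.IsAdmissible where
  connected := by
    have h : ∀ v : Fin 7, Relation.EqvGen (fun a b => ∃ e, T.src e = a ∧ T.tgt e = b) 0 v := by
      have st : ∀ e : Fin 6, Relation.EqvGen (fun a b => ∃ e, T.src e = a ∧ T.tgt e = b)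
          (T.src e) (T.tgt e) := fun e => Relation.EqvGen.rel _ _ ⟨e, rfl, rfl⟩
      have h1 := st 0
      have h4 := st 3
      intro v
      fin_cases v
      · exact Relation.EqvGen.refl _
      · exact h1
      · exact Relation.EqvGen.trans _ _ _ h1 (st 1)
      · exact Relation.EqvGen.trans _ _ _ h1 (st 2)
      · exact h4
      · exact Relation.EqvGen.trans _ _ _ h4 (st 4)
      · exact Relation.EqvGen.trans _ _ _ h4 (st 5)
    intro v w
    exact Relation.EqvGen.trans _ _ _ (Relation.EqvGen.symm _ _ (h v)) (h w)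
  hasLead := ⟨0, le_rfl⟩
  degree_ne_two := by decide

theorem T_loopless : T.Loopless := by
  intro e
  fin_cases e <;> decide

/-- The coefficient of the cosine. -/
noncomputable def cA : Fin 6 → ℝ :=
  ![0, Real.sin (len 0), Real.sin (len 0), 0, -Real.sin (len 3), -Real.sin (len 3)]
/-- The coefficient of the sine. -/
noncomputable def cB : Fin 6 → ℝ :=
  ![1, 2 * Real.sin (len 0), 4 * Real.sin (len 0), -1, -(10 * Real.sin (len 3)),
    -(14 * Real.sin (len 3))]
/-- The values at the vertices. -/
noncomputable def cV : Fin 7 → ℝ :=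
  ![0, Real.sin (len 0), cA 1 * Real.cos (len 1) + cB 1 * Real.sin (len 1),
    cA 2 * Real.cos (len 2) + cB 2 * Real.sin (len 2), -Real.sin (len 3),
    cA 4 * Real.cos (len 4) + cB 4 * Real.sin (len 4),
    cA 5 * Real.cos (len 5) + cB 5 * Real.sin (len 5)]

theorem kirchhoff (v : Fin 7) : (∑ e ∈ Finset.univ.filter (fun e => T.src e = v), cB e) +
    (∑ e ∈ Finset.univ.filter (fun e => T.tgt e = v),
      -(cB e * Real.cos (len e) - cA e * Real.sin (len e))) = 0 := by
  have s0 := sin_len 0
  have s1 := sin_len 1
  have s2 := sin_len 2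
  have s3 := sin_len 3
  have s4 := sin_len 4
  have s5 := sin_len 5
  simp only [zr, zi, Matrix.cons_val, Int.cast_ofNat, Int.cast_one] at s0 s1 s2 s3 s4 s5
  simp only [Finset.sum_filter, Fin.sum_univ_six]
  fin_cases v
  · simp [T, cA, cB]
  · simp [T, cA, cB]
    linarith
  · simp [T, cA, cB]
    linear_combination (Real.sin (len 0)) * s1
  · simp [T, cA, cB]
    linear_combination (Real.sin (len 0)) * s2
  · simp [T, cA, cB]
    linarith
  · simp [T, cA, cB]
    linear_combination (-Real.sin (len 3)) * s4
  · simp [T, cA, cB]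
    linear_combination (-Real.sin (len 3)) * s5

theorem T_eigenvalue : T.IsEigenvalue len 1 := by
  refine ⟨fun e x => ((cA e * Real.cos x + cB e * Real.sin x : ℝ) : ℂ),
    fun e x => ((cB e * Real.cos x - cA e * Real.sin x : ℝ) : ℂ),
    fun _ _ _ => 0, fun _ _ _ => 0, fun v => ((cV v : ℝ) : ℂ), ?_, ?_, ?_, ?_, ?_, ?_, ?_, ?_, ?_,
    ?_, ?_⟩
  · intro e x _
    have h : HasDerivAt (fun x => cA e * Real.cos x + cB e * Real.sin x)
        (cB e * Real.cos x - cA e * Real.sin x) x := by
      refine (((Real.hasDerivAt_cos x).const_mul (cA e)).add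
        ((Real.hasDerivAt_sin x).const_mul (cB e))).congr_deriv ?_
      ring
    exact h.ofReal_comp.hasDerivWithinAt
  · intro e x _
    have h : HasDerivAt (fun x => cB e * Real.cos x - cA e * Real.sin x)
        (-(cA e * Real.cos x + cB e * Real.sin x)) x := by
      refine (((Real.hasDerivAt_cos x).const_mul (cB e)).sub
        ((Real.hasDerivAt_sin x).const_mul (cA e))).congr_deriv ?_
      ring
    have h2 := h.ofReal_comp.hasDerivWithinAt (s := Icc 0 (len e))
    refine h2.congr_deriv ?_
    push_cast
    ring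
  · intro v i x _
    exact hasDerivWithinAt_const _ _ _
  · intro v i x _
    exact (hasDerivWithinAt_const _ _ _).congr_deriv (by simp)
  · intro e
    have hc : Continuous fun x : ℝ => ((cA e * Real.cos x + cB e * Real.sin x : ℝ) : ℂ) := by
      fun_prop
    refine MemLp.of_bound hc.aestronglyMeasurable (|cA e| + |cB e|) (Filter.Eventually.of_forall fun x => ?_)
    rw [Complex.norm_real, Real.norm_eq_abs]
    refine (abs_add_le _ _).trans (add_le_add ?_ ?_)
    · rw [abs_mul]
      exact mul_le_of_le_one_right (abs_nonneg _) (Real.abs_cos_le_one x)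
    · rw [abs_mul]
      exact mul_le_of_le_one_right (abs_nonneg _) (Real.abs_sin_le_one x)
  · intro v i
    exact MemLp.zero
  · intro e
    fin_cases e <;> simp [T, cA, cV]
  · intro e
    fin_cases e <;> simp [T, cA, cB, cV]
  · intro v i
    fin_cases v
    · simp [cV]
    all_goals exact i.elim0
  · intro v
    have h := kirchhoff v
    have h2 := congrArg (fun t : ℝ => (t : ℂ)) h
    simp only [Complex.ofReal_add, Complex.ofReal_sum, Complex.ofReal_zero] at h2
    simp only [Finset.sum_const_zero, add_zero]
    rw [← h2]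
    congr 1
    · refine Finset.sum_congr rfl fun e _ => ?_
      simp
    · refine Finset.sum_congr rfl fun e _ => ?_
      push_cast
      ring
  · left
    refine ⟨0, len 0, ⟨(len_pos 0).le, le_rfl⟩, ?_⟩
    have : 0 < Real.sin (len 0) := by
      have := sin_len 0
      simp [zr, zi] at this
      have h2 := cos_len_pos 0
      linarith
    simp [cA, cB]
    exact_mod_cast this.ne'

/-- **Disproof of Q1.**  There is a finite connected graph without loops, with leads attached so
that no vertex has degree two, and there are positive edge lengths, linearly independent over the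
integers, such that the Kirchhoff Laplacian of the metric graph has an eigenvalue. -/
theorem result : ∃ (V E : Type) (_ : Fintype V) (_ : Fintype E) (_ : DecidableEq V)
    (G : OpenGraph V E), G.IsAdmissible ∧ G.Loopless ∧
      ∃ l : E → ℝ, (∀ e, 0 < l e) ∧ LinearIndependent ℤ l ∧ ∃ lam : ℝ, G.IsEigenvalue l lam :=
  ⟨Fin 7, Fin 6, inferInstance, inferInstance, inferInstance, T, T_admissible, T_loopless, len,
    len_pos, linInd, 1, T_eigenvalue⟩

end Pool.Agent.Results.MP_332ffb_mp.EmbeddedEigenvalue
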